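import Pool.Agent.V11249.MeasHom
import Pool.Agent.V11249.ProbFinite

/-!
# Pointwise convergence of homomorphisms into measure algebras is uniform for algebras with the
positive Grothendieck property

Let `φ_n → φ` pointwise algebraically but not uniformly. Then there are `ε > 0`, elements `a_j` and
numbers `n_j ≥ j` with `μ(φ_{n_j}(a_j) ∆ φ(a_j)) > ε`. On a set of measure at least `ε` the
sequence of the ultrafilters given by the `φ_n` on the algebra generated by the `a_j` takes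
infinitely many values. A random union of atoms of the algebra generated by `a_0, …, a_{r-1}` shows
that for all `k` and `δ > 0` there is an element `c` with `μ(φ(c)) ≤ δ` such that the union of
finitely many `φ_n(c)`, `n ≥ k`, has measure at least `ε/4`. Choosing for each point of this union an
index `n` with this point in `φ_n(c)` gives a homomorphism `ψ_k` with `μ(ψ_k(c_k)) ≥ ε/4`, and the
measures `μ ∘ ψ_k` converge pointwise to `μ ∘ φ`. With `∑ μ(φ(c_k)) ≤ ε/8`, a cluster point of the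
evaluations at the unions of `c_0, …, c_j` shows that this convergence is not weak.
-/

set_option autoImplicit false

open MeasureTheory Set Filter Topology V11249.MeasHom

universe u v

namespace Pool.Agent.Results.MP_955413_lc.PosGrothendieckUniform

/-- The positive Grothendieck property of a Boolean algebra `A`: every weak* convergent sequence of
positive functionals on the space of continuous functions on the Stone space converges weakly. -/
def PosGrothendieck (A : Type u) [BooleanAlgebra A] : Prop :=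
  ∀ (ν : ℕ → StrongDual ℝ C(St A, ℝ)) (ν0 : StrongDual ℝ C(St A, ℝ)),
    (∀ n f, 0 ≤ f → 0 ≤ ν n f) → (∀ f, Tendsto (fun n => ν n f) atTop (𝓝 (ν0 f))) →
    ∀ Φ : StrongDual ℝ (StrongDual ℝ C(St A, ℝ)), Tendsto (fun n => Φ (ν n)) atTop (𝓝 (Φ ν0))

variable {A : Type u} [BooleanAlgebra A] {Ω : Type v} [MeasurableSpace Ω] {μ : Measure Ω}

/-- Pointwise algebraic convergence. -/
def AlgConv (φ : ℕ → MHom A μ) (φ0 : MHom A μ) : Prop :=
  ∀ a : A, (⋃ n, ⋂ m > n, (φ m).toFun a : Set Ω) =ᵐ[μ] φ0.toFun a ∧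
    (⋂ n, ⋃ m > n, (φ m).toFun a : Set Ω) =ᵐ[μ] φ0.toFun a

/-- Uniform convergence. -/
def UnifConv (φ : ℕ → MHom A μ) (φ0 : MHom A μ) : Prop :=
  Tendsto (fun n => ⨆ a : A, μ (symmDiff ((φ n).toFun a) (φ0.toFun a))) atTop (𝓝 0)

lemma AlgConv.ae {φ : ℕ → MHom A μ} {φ0 : MHom A μ} (h : AlgConv φ φ0) (a : A) :
    ∀ᵐ ω ∂μ, ∀ᶠ n in atTop, (ω ∈ (φ n).toFun a ↔ ω ∈ φ0.toFun a) := by
  filter_upwards [(h a).1, (h a).2] with ω h1 h2
  have h1' : (ω ∈ (⋃ n, ⋂ m > n, (φ m).toFun a : Set Ω)) = (ω ∈ φ0.toFun a) := h1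
  have h2' : (ω ∈ (⋂ n, ⋃ m > n, (φ m).toFun a : Set Ω)) = (ω ∈ φ0.toFun a) := h2
  by_cases hω : ω ∈ φ0.toFun a
  · rw [← h1'] at hω
    have hω0 : ω ∈ φ0.toFun a := by rwa [← h1']
    simp only [mem_iUnion, mem_iInter] at hω
    obtain ⟨n, hn⟩ := hω
    filter_upwards [eventually_gt_atTop n] with m hm
    exact iff_of_true (hn m hm) hω0
  · have hω1 : ω ∉ (⋂ n, ⋃ m > n, (φ m).toFun a : Set Ω) := by rwa [h2']
    simp only [mem_iUnion, mem_iInter] at hω1
    push Not at hω1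
    obtain ⟨n, hn⟩ := hω1
    filter_upwards [eventually_gt_atTop n] with m hm
    exact iff_of_false (hn m hm) hω

/-- glueing of homomorphisms -/
def glueHom (φ : ℕ → MHom A μ) (idx : Ω → ℕ) (hidx : Measurable idx) : MHom A μ where
  toFun a := {ω | ω ∈ (φ (idx ω)).toFun a}
  meas a := by
    have h : {ω | ω ∈ (φ (idx ω)).toFun a} = ⋃ n, (idx ⁻¹' {n} ∩ (φ n).toFun a) := by
      ext ω
      simp
    rw [h]
    exact MeasurableSet.iUnion fun n => (hidx (measurableSet_singleton n)).inter ((φ n).meas a)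
  top := by
    have h : ∀ᵐ ω ∂μ, ∀ n, ω ∈ (φ n).toFun ⊤ := ae_all_iff.2 fun n => (φ n).ae_top
    filter_upwards [h] with ω hω
    exact propext (iff_of_true (hω _) trivial)
  inf a b := by
    have h : ∀ᵐ ω ∂μ, ∀ n, (ω ∈ (φ n).toFun (a ⊓ b) ↔ ω ∈ (φ n).toFun a ∧ ω ∈ (φ n).toFun b) :=
      ae_all_iff.2 fun n => (φ n).ae_inf a b
    filter_upwards [h] with ω hω
    exact propext (hω _)
  compl a := by
    have h : ∀ᵐ ω ∂μ, ∀ n, (ω ∈ (φ n).toFun aᶜ ↔ ω ∉ (φ n).toFun a) :=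
      ae_all_iff.2 fun n => (φ n).ae_compl a
    filter_upwards [h] with ω hω
    exact propext (hω _)

lemma image_fin {β : Type*} [DecidableEq β] (f : ℕ → β) (m r : ℕ) :
    Finset.image (fun n : Fin r => f n) (Finset.univ.filter fun n : Fin r => m ≤ n.1) =
      Finset.image f (Finset.Ico m r) := by
  ext b
  simp only [Finset.mem_image, Finset.mem_filter, Finset.mem_univ, true_and, Finset.mem_Ico]
  constructor
  · rintro ⟨n, hn, rfl⟩
    exact ⟨n, ⟨hn, n.2⟩, rfl⟩
  · rintro ⟨n, ⟨h1, h2⟩, rfl⟩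
    exact ⟨⟨n, h2⟩, h1, rfl⟩

/-- The main construction. -/
lemma main_step [IsProbabilityMeasure μ] {φ : ℕ → MHom A μ} {φ0 : MHom A μ} (h : AlgConv φ φ0)
    {ε : ENNReal} (hε : 0 < ε) (hε1 : ε ≤ 1) (nn : ℕ → ℕ) (hnn : ∀ j, j ≤ nn j) (aa : ℕ → A)
    (hD : ∀ j, ε < μ (symmDiff ((φ (nn j)).toFun (aa j)) (φ0.toFun (aa j)))) (m : ℕ) (δ : ℝ)
    (hδ : 0 < δ) : ∃ (c : A) (r : ℕ), μ.real (φ0.toFun c) ≤ δ ∧
      ε.toReal / 4 ≤ μ.real (⋃ n ∈ Finset.Ico m r, (φ n).toFun c) := by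
  classical
  have hεtop : ε ≠ ⊤ := ne_top_of_le_ne_top ENNReal.one_ne_top hε1
  have hεr : 0 < ε.toReal := ENNReal.toReal_pos hε.ne' hεtop
  set ρ : ℝ := min (δ * ε.toReal / 8) (1 / 2) with hρ
  have hρ0 : 0 < ρ := lt_min (by positivity) (by norm_num)
  have hρ1 : ρ < 1 := (min_le_right _ _).trans_lt (by norm_num)
  obtain ⟨N, hN⟩ := exists_pow_lt_of_lt_one (show (0 : ℝ) < 1 / 4 by norm_num)
    (show 1 - ρ < 1 by linarith)
  -- the set where many values occur
  let D : ℕ → Set Ω := fun j => symmDiff ((φ (nn j)).toFun (aa j)) (φ0.toFun (aa j))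
  have hDm : ∀ j, MeasurableSet (D j) := fun j => ((φ (nn j)).meas _).symmDiff (φ0.meas _)
  let E : Set Ω := ⋂ J : ℕ, ⋃ j ≥ J, D j
  have hE : ε ≤ μ E := by
    have h1 : Tendsto (fun J : ℕ => μ (⋃ j ≥ J, D j)) atTop (𝓝 (μ E)) := by
      refine tendsto_measure_iInter_atTop (fun J => ?_) ?_ ⟨0, measure_ne_top _ _⟩
      · exact (MeasurableSet.iUnion fun j => MeasurableSet.iUnion fun _ => hDm j).nullMeasurableSet
      · intro J J' hJ
        exact iUnion_mono fun j => iUnion_subset fun hj => subset_iUnion_of_subset (hJ.trans hj)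
          le_rfl
    refine ge_of_tendsto' h1 fun J => ?_
    exact (hD J).le.trans (measure_mono (subset_iUnion₂_of_subset J le_rfl le_rfl))
  let T : (r : ℕ) → Ω → Finset (Fin r → Bool) := fun r ω =>
    Finset.image (fun n => fun j : Fin r => decide (ω ∈ (φ n).toFun (aa j))) (Finset.Ico m r)
  let G : ℕ → Set Ω := fun r => {ω | N ≤ (T r ω).card}
  have hEG : ∀ᵐ ω ∂μ, ω ∈ E → ω ∈ ⋃ R, ⋂ r ≥ R, G r := by
    have h1 : ∀ᵐ ω ∂μ, ∀ j, ∀ᶠ n in atTop, (ω ∈ (φ n).toFun (aa j) ↔ ω ∈ φ0.toFun (aa j)) :=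
      ae_all_iff.2 fun j => h.ae (aa j)
    filter_upwards [h1] with ω h1 hω
    obtain ⟨r0, hr0⟩ := V11249.ProbFinite.many (fun n j => decide (ω ∈ (φ n).toFun (aa j)))
      (fun j => decide (ω ∈ φ0.toFun (aa j))) (fun j => by
        filter_upwards [h1 j] with n hn
        exact decide_eq_decide.2 hn) (fun m' => by
        have h2 := mem_iInter.1 hω m'
        simp only [mem_iUnion] at h2
        obtain ⟨j, hj, hjD⟩ := h2
        refine ⟨nn j, le_trans hj (hnn j), fun heq => ?_⟩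
        have h3 := decide_eq_decide.1 (congrFun heq j)
        rcases hjD with ⟨h4, h5⟩ | ⟨h4, h5⟩
        · exact h5 (h3.1 h4)
        · exact h5 (h3.2 h4)) m N
    refine mem_iUnion.2 ⟨r0, mem_iInter₂.2 fun r hr => ?_⟩
    exact hr0 r hr
  have hGR : ∃ r, ε / 2 ≤ μ (G r) := by
    have h1 : ε ≤ ⨆ R, μ (⋂ r ≥ R, G r) := by
      rw [← Monotone.measure_iUnion]
      · refine hE.trans (measure_mono_ae ?_)
        filter_upwards [hEG] with ω hω h
        exact hω h
      · intro R R' hR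
        exact iInter_mono fun r => subset_iInter fun hr => iInter_subset _ (hR.trans hr)
    have h2 : ε / 2 < ε := ENNReal.half_lt_self hε.ne' hεtop
    obtain ⟨R, hR⟩ := lt_iSup_iff.1 (h2.trans_le h1)
    refine ⟨R, hR.le.trans (measure_mono ?_)⟩
    exact iInter₂_subset R le_rfl
  obtain ⟨r, hr⟩ := hGR
  -- the finite probability space
  let a' : Fin r → A := fun j => aa j
  let Z : Ω → (Fin r → Fin r → Bool) × (Fin r → Bool) := fun ω =>
    (fun n => pat (φ n) a' ω, pat φ0 a' ω)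
  have hZ : Measurable Z :=
    (measurable_pi_iff.2 fun n : Fin r => pat_meas (φ n) a').prodMk (pat_meas φ0 a')
  let TT : (Fin r → Fin r → Bool) × (Fin r → Bool) → Finset (Fin r → Bool) := fun z =>
    Finset.image z.1 (Finset.univ.filter fun n : Fin r => m ≤ n.1)
  have hTT : ∀ ω, TT (Z ω) = T r ω := fun ω =>
    image_fin (fun n => fun j : Fin r => decide (ω ∈ (φ n).toFun (aa j))) m r
  have hp1 : ∑ z, μ.real (Z ⁻¹' {z}) = 1 := by
    have h1 := real_eq_sum (μ := μ) Z hZ (fun _ => True)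
    simp only [if_true] at h1
    rw [← h1]
    have : {ω : Ω | True} = univ := by ext; simp
    rw [this]
    simp
  obtain ⟨R, hR1, hR2⟩ := V11249.ProbFinite.exists_subset (fun z => μ.real (Z ⁻¹' {z}))
    (fun z => measureReal_nonneg) hp1 TT (fun z => z.2) ε.toReal ρ N hεr hρ0 hρ1 hN.le (by
      rw [← real_eq_sum (μ := μ) Z hZ (fun z => N ≤ (TT z).card)]
      have h1 : {ω | N ≤ (TT (Z ω)).card} = G r := by
        ext ω
        show N ≤ (TT (Z ω)).card ↔ N ≤ (T r ω).card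
        rw [hTT]
      rw [h1, measureReal_def, ← ENNReal.toReal_ofNat, ← ENNReal.toReal_div]
      exact ENNReal.toReal_mono (measure_ne_top _ _) hr)
  refine ⟨pels a' R, r, ?_, ?_⟩
  · have h1 := real_eq_sum (μ := μ) Z hZ (fun z => z.2 ∈ R)
    have h2 : μ.real (φ0.toFun (pels a' R)) = μ.real {ω | (Z ω).2 ∈ R} := by
      refine measureReal_congr ?_
      filter_upwards [φ0.ae_pels a' R] with ω hω
      exact propext hω
    rw [h2, h1]
    refine hR2.trans ?_
    rw [div_le_iff₀ hεr]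
    have := min_le_left (δ * ε.toReal / 8) (1 / 2)
    rw [← hρ] at this
    linarith
  · have h1 := real_eq_sum (μ := μ) Z hZ (fun z => ¬ Disjoint (TT z) R)
    have h2 : μ.real (⋃ n ∈ Finset.Ico m r, (φ n).toFun (pels a' R)) =
        μ.real {ω | ¬ Disjoint (TT (Z ω)) R} := by
      refine measureReal_congr ?_
      have h3 : ∀ᵐ ω ∂μ, ∀ n, (ω ∈ (φ n).toFun (pels a' R) ↔ pat (φ n) a' ω ∈ R) :=
        ae_all_iff.2 fun n => (φ n).ae_pels a' R
      filter_upwards [h3] with ω hω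
      refine propext ?_
      show (ω ∈ ⋃ n ∈ Finset.Ico m r, (φ n).toFun (pels a' R)) ↔ ¬ Disjoint (TT (Z ω)) R
      rw [hTT, Finset.not_disjoint_iff]
      simp only [mem_iUnion, T, Finset.mem_image]
      constructor
      · rintro ⟨n, hn, h4⟩
        exact ⟨_, ⟨n, hn, rfl⟩, (hω n).1 h4⟩
      · rintro ⟨_, ⟨n, hn, rfl⟩, h4⟩
        exact ⟨n, hn, (hω n).2 h4⟩
    rw [h2, h1]
    exact hR1

lemma exists_idx (φ : ℕ → MHom A μ) (k r : ℕ) (c : A) : ∃ idx : Ω → ℕ, Measurable idx ∧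
    (∀ ω, k ≤ idx ω) ∧
    ∀ ω ∈ ⋃ n ∈ Finset.Ico k r, (φ n).toFun c, ω ∈ (φ (idx ω)).toFun c := by
  classical
  let bits : Ω → (Fin r → Bool) := fun ω n => decide (ω ∈ (φ n).toFun c)
  have hbits : Measurable bits := by
    refine measurable_pi_iff.2 fun n => measurable_to_bool ?_
    have : (fun ω => bits ω n) ⁻¹' {true} = (φ n).toFun c := by
      ext ω
      simp [bits]
    rw [this]
    exact (φ n).meas _
  let g : (Fin r → Bool) → ℕ := fun b =>
    if h : ∃ n : Fin r, k ≤ n.1 ∧ b n = true then h.choose.1 else k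
  refine ⟨g ∘ bits, (Measurable.of_discrete (f := g)).comp hbits, fun ω => ?_, fun ω hω => ?_⟩
  · show k ≤ g (bits ω)
    simp only [g]
    split_ifs with hh
    · exact hh.choose_spec.1
    · exact le_rfl
  · simp only [mem_iUnion, Finset.mem_Ico] at hω
    obtain ⟨n, ⟨hn1, hn2⟩, hn3⟩ := hω
    have hh : ∃ n : Fin r, k ≤ n.1 ∧ bits ω n = true :=
      ⟨⟨n, hn2⟩, hn1, by simpa [bits] using hn3⟩
    have h1 : (g ∘ bits) ω = hh.choose.1 := by
      simp only [Function.comp, g, dif_pos hh]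
    rw [h1]
    have h2 := hh.choose_spec.2
    simpa [bits] using h2

lemma conv_glue [IsProbabilityMeasure μ] {φ : ℕ → MHom A μ} {φ0 : MHom A μ} (h : AlgConv φ φ0)
    (idx : ℕ → Ω → ℕ) (hidx1 : ∀ k, Measurable (idx k)) (hidx2 : ∀ k ω, k ≤ idx k ω) (a : A) :
    Tendsto (fun k => μ.real ((glueHom φ (idx k) (hidx1 k)).toFun a)) atTop
      (𝓝 (μ.real (φ0.toFun a))) := by
  let B : ℕ → Set Ω := fun k => ⋃ n ≥ k, symmDiff ((φ n).toFun a) (φ0.toFun a)
  have hB : Tendsto (fun k => μ.real (B k)) atTop (𝓝 0) := by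
    have h1 : Tendsto (fun k => μ (B k)) atTop (𝓝 (μ (⋂ k, B k))) := by
      refine tendsto_measure_iInter_atTop (fun k => ?_) ?_ ⟨0, measure_ne_top _ _⟩
      · exact (MeasurableSet.iUnion fun n => MeasurableSet.iUnion fun _ =>
          ((φ n).meas a).symmDiff (φ0.meas a)).nullMeasurableSet
      · intro k k' hk
        exact iUnion_mono fun n => iUnion_subset fun hn => subset_iUnion_of_subset (hk.trans hn)
          le_rfl
    have h2 : μ (⋂ k, B k) = 0 := by
      have h3 : ∀ᵐ ω ∂μ, ω ∉ ⋂ k, B k := by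
        filter_upwards [h.ae a] with ω hω hB
        obtain ⟨n0, hn0⟩ := eventually_atTop.1 hω
        have h4 := mem_iInter.1 hB n0
        simp only [B, mem_iUnion] at h4
        obtain ⟨n, hn, h5⟩ := h4
        have h6 := hn0 n hn
        rcases h5 with ⟨h7, h8⟩ | ⟨h7, h8⟩
        · exact h8 (h6.1 h7)
        · exact h8 (h6.2 h7)
      rw [← compl_compl (⋂ k, B k)]
      exact mem_ae_iff.1 h3
    rw [h2] at h1
    have h3 := (ENNReal.tendsto_toReal ENNReal.zero_ne_top).comp h1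
    rw [ENNReal.toReal_zero] at h3
    exact h3
  have hsub1 : ∀ k, (glueHom φ (idx k) (hidx1 k)).toFun a ⊆ φ0.toFun a ∪ B k := by
    intro k ω hω
    by_cases h1 : ω ∈ φ0.toFun a
    · exact Or.inl h1
    · exact Or.inr (mem_iUnion₂.2 ⟨idx k ω, hidx2 k ω, Or.inl ⟨hω, h1⟩⟩)
  have hsub2 : ∀ k, φ0.toFun a ⊆ (glueHom φ (idx k) (hidx1 k)).toFun a ∪ B k := by
    intro k ω hω
    by_cases h1 : ω ∈ (glueHom φ (idx k) (hidx1 k)).toFun a
    · exact Or.inl h1
    · exact Or.inr (mem_iUnion₂.2 ⟨idx k ω, hidx2 k ω, Or.inr ⟨hω, h1⟩⟩)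
  have h3 : ∀ k, μ.real ((glueHom φ (idx k) (hidx1 k)).toFun a) ≤
      μ.real (φ0.toFun a) + μ.real (B k) := fun k =>
    (measureReal_mono (hsub1 k)).trans (measureReal_union_le _ _)
  have h4 : ∀ k, μ.real (φ0.toFun a) - μ.real (B k) ≤
      μ.real ((glueHom φ (idx k) (hidx1 k)).toFun a) := fun k => by
    have := (measureReal_mono (μ := μ) (hsub2 k)).trans (measureReal_union_le _ _)
    linarith
  refine tendsto_of_tendsto_of_tendsto_of_le_of_le ?_ ?_ h4 h3
  · simpa using tendsto_const_nhds.sub hB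
  · simpa using tendsto_const_nhds.add hB

lemma exists_bidual_cluster {E : Type*} [NormedAddCommGroup E] [NormedSpace ℝ E] (x : ℕ → E)
    (hx : ∀ j, ‖x j‖ ≤ 1) : ∃ Φ : StrongDual ℝ (StrongDual ℝ E),
      ∀ Λ : StrongDual ℝ E, MapClusterPt (Φ Λ) atTop (fun j => Λ (x j)) := by
  obtain ⟨Φ, -, hΦ⟩ := exists_cluster (E := StrongDual ℝ E) (atTop : Filter ℕ)
    (fun j => NormedSpace.inclusionInDoubleDual ℝ E (x j)) (fun j =>
      (NormedSpace.double_dual_bound ℝ E (x j)).trans (hx j))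
  exact ⟨Φ, fun Λ => hΦ Λ⟩

lemma norm_ind_le (a : A) : ‖ind a‖ ≤ 1 := by
  rw [ContinuousMap.norm_le _ zero_le_one]
  intro p
  show ‖(if p.1 a = true then (1 : ℝ) else 0)‖ ≤ 1
  split_ifs <;> simp

/-- If a Boolean algebra has the positive Grothendieck property, then pointwise algebraically
convergent sequences of homomorphisms into the measure algebra of a probability space converge
uniformly. -/
theorem result (A : Type u) [BooleanAlgebra A] (hA : PosGrothendieck A) {Ω : Type v}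
    [MeasurableSpace Ω] (μ : Measure Ω) [IsProbabilityMeasure μ] (φ : ℕ → MHom A μ)
    (φ0 : MHom A μ) (h : AlgConv φ φ0) : UnifConv φ φ0 := by
  classical
  by_contra hcon
  -- the witnesses of non-uniformity
  obtain ⟨ε, hε, hε1, hev⟩ : ∃ ε : ENNReal, 0 < ε ∧ ε ≤ 1 ∧ ∀ j, ∃ n ≥ j, ∃ a : A,
      ε < μ (symmDiff ((φ n).toFun a) (φ0.toFun a)) := by
    unfold UnifConv at hcon
    rw [ENNReal.tendsto_nhds_zero] at hcon
    push Not at hcon
    obtain ⟨ε, hε, hfr⟩ := hcon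
    have h1 : ∀ j, ∃ n ≥ j, ∃ a : A, ε < μ (symmDiff ((φ n).toFun a) (φ0.toFun a)) := by
      intro j
      obtain ⟨n, hn, hn2⟩ := Filter.frequently_atTop.1 hfr j
      obtain ⟨a, ha⟩ := lt_iSup_iff.1 hn2
      exact ⟨n, hn, a, ha⟩
    refine ⟨ε, hε, ?_, h1⟩
    obtain ⟨n, -, a, ha⟩ := h1 0
    exact ha.le.trans prob_le_one
  choose nn hnn aa hD using hev
  have hεtop : ε ≠ ⊤ := ne_top_of_le_ne_top ENNReal.one_ne_top hε1
  have hεr : 0 < ε.toReal := ENNReal.toReal_pos hε.ne' hεtop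
  -- the elements `c k`
  have hstep := fun k : ℕ => main_step h hε hε1 nn hnn aa hD k (ε.toReal / 16 * (1 / 2) ^ k)
    (by positivity)
  choose c r hc1 hc2 using hstep
  -- the homomorphisms `ψ k`
  have hidx := fun k => exists_idx φ k (r k) (c k)
  choose idx hidx1 hidx2 hidx3 using hidx
  let ψ : ℕ → MHom A μ := fun k => glueHom φ (idx k) (hidx1 k)
  -- the functionals
  choose Λ hΛ1 hΛ2 hΛ3 using fun k => exists_functional (ψ k)
  obtain ⟨Λ0, hΛ01, -, hΛ03⟩ := exists_functional φ0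
  have hweak := tendsto_of_ind Λ Λ0 hΛ1 hΛ01 (fun a => by
    simp only [hΛ3, hΛ03]
    exact conv_glue h idx hidx1 hidx2 a)
  -- the element of the bidual
  let b : ℕ → A := fun j => (Finset.range (j + 1)).sup c
  obtain ⟨Φ, hΦ⟩ := exists_bidual_cluster (fun j => ind (b j)) (fun j => norm_ind_le (b j))
  have hlim := hA Λ Λ0 hΛ2 hweak Φ
  have hlow : ∀ k, ε.toReal / 4 ≤ Φ (Λ k) := by
    intro k
    refine MapClusterPt.ge_of_eventually (hΦ (Λ k)) ?_
    filter_upwards [eventually_ge_atTop k] with j hj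
    show ε.toReal / 4 ≤ (Λ k) (ind (b j))
    rw [hΛ3]
    refine (hc2 k).trans ?_
    refine (measureReal_mono (μ := μ) (hidx3 k)).trans ?_
    have h1 : μ ({ω | ω ∈ (φ (idx k ω)).toFun (c k)}) ≤ μ ((ψ k).toFun (b j)) := by
      refine measure_mono_ae ?_
      filter_upwards [(ψ k).ae_fsup (Finset.range (j + 1)) c] with ω hω h2
      exact hω.2 ⟨k, Finset.mem_range.2 (by omega), h2⟩
    exact ENNReal.toReal_mono (measure_ne_top _ _) h1
  have hup : Φ Λ0 ≤ ε.toReal / 8 := by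
    refine MapClusterPt.le_of_eventually (hΦ Λ0) (Filter.Eventually.of_forall fun j => ?_)
    show Λ0 (ind (b j)) ≤ ε.toReal / 8
    rw [hΛ03]
    have h1 : μ.real (φ0.toFun (b j)) ≤ μ.real (⋃ i ∈ Finset.range (j + 1), φ0.toFun (c i)) := by
      refine ENNReal.toReal_mono (measure_ne_top _ _) (measure_mono_ae ?_)
      filter_upwards [φ0.ae_fsup (Finset.range (j + 1)) c] with ω hω h2
      obtain ⟨i, hi, h3⟩ := hω.1 h2
      exact mem_iUnion₂.2 ⟨i, hi, h3⟩
    refine h1.trans ((measureReal_biUnion_finset_le _ _).trans ?_)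
    refine (Finset.sum_le_sum fun i _ => hc1 i).trans ?_
    rw [← Finset.mul_sum]
    have h2 : ∑ i ∈ Finset.range (j + 1), (1 / 2 : ℝ) ^ i ≤ 2 := by
      have h3 := sum_geometric_two_le (j + 1)
      simpa using h3
    nlinarith
  have hfin := ge_of_tendsto' hlim hlow
  linarith

end Pool.Agent.Results.MP_955413_lc.PosGrothendieckUniform
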